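import Pool.Agent.Helper56.RZ.GoalsD

/-!
# Project RZ3 (MP_f32c9c_an): Fubini in linear coordinates
-/

set_option autoImplicit false

namespace Pool.Agent.Helper81.RZ

open Pool.Agent.Helper56.RZ MeasureTheory

theorem fb : StmtFB := by
  intro N u w Ξ
  have hH : (Measure.map Ξ ((volume : Measure (E u)).prod (volume : Measure (E w)))).IsAddHaarMeasure :=
    ContinuousLinearEquiv.isAddHaarMeasure_map Ξ _
  set μ' : Measure (E N) := Measure.map Ξ ((volume : Measure (E u)).prod (volume : Measure (E w)))
    with hμ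
  have h1 : (volume : Measure (E N)) = Measure.addHaarScalarFactor volume μ' • μ' :=
    Measure.isAddLeftInvariant_eq_smul volume μ'
  refine ⟨(Measure.addHaarScalarFactor (volume : Measure (E N)) μ' : ℝ), NNReal.coe_nonneg _, ?_⟩
  intro z0 Z hZ
  have hm : Measurable fun x : E u × E w => Ξ x := Ξ.continuous.measurable
  have hZ' : MeasurableSet ((fun x => z0 + x) ⁻¹' Z) := (measurable_const_add z0) hZ
  have h2 : μ' Z = ∫⁻ b : E w, volume {a : E u | z0 + Ξ (a, b) ∈ Z} := by
    rw [← measure_preimage_add μ' z0 Z, hμ, Measure.map_apply hm hZ',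
      Measure.prod_apply_symm (hm hZ')]
    rfl
  conv_lhs => rw [h1]
  rw [Measure.smul_apply, h2, ENNReal.ofReal_coe_nnreal]
  rfl

end Pool.Agent.Helper81.RZ
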