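import Pool.Agent.Helper56.RZ.GoalsE
import Pool.Agent.Helper16.RZ.LP

/-!
# Project RZ4 (MP_f32c9c_an), packet TC: cones of pairs under inverse iterates
-/

set_option autoImplicit false

open Set Filter Topology

namespace Pool.Agent.Helper81.RZ

open Pool.Agent.Helper56.RZ Pool.Agent.Helper16.RZ

variable {K : ℕ} {M : Set (E K)}

/-- the pair `x, y` is in the cone of size `κ` around the bundle `0` -/
def cone (P : Fin 3 → M → End K) (κ : ℝ) (x y : M) : Prop :=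
  ‖(P 2 x + P 1 x) ((y : E K) - x)‖ ≤ κ * ‖P 0 x ((y : E K) - x)‖

theorem cone_mono {P : Fin 3 → M → End K} {κ κ' : ℝ} (h : κ ≤ κ') {x y : M}
    (hc : cone P κ x y) : cone P κ' x y :=
  hc.trans (mul_le_mul_of_nonneg_right h (norm_nonneg _))

theorem tc_step (hM : IsCompact M) (C : Coc M K) (P : Fin 3 → M → End K) (hL : Lin C)
    (hP : Spl C P) (κ : ℝ) (hκ : 1 ≤ κ) :
    ∃ κ' δ : ℝ, 1 ≤ κ' ∧ 0 < δ ∧ ∀ x y : M, ‖(y : E K) - x‖ ≤ δ →
      cone P κ (C.f x) (C.f y) → cone P κ' x y := by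
  obtain ⟨R0, hR00, hR0⟩ := bdd_of_cont hM (hP.cont 0)
  obtain ⟨R1, hR10, hR1⟩ := bdd_of_cont hM (hP.cont 1)
  obtain ⟨R2, hR20, hR2⟩ := bdd_of_cont hM (hP.cont 2)
  obtain ⟨RA, hRA0, hRA⟩ := bdd_of_cont hM C.contA
  obtain ⟨RB, hRB0, hRB⟩ := bdd_of_cont hM C.contB
  obtain ⟨Lf, hLf0, hLf⟩ := (ud_one hM C hL).flip
  obtain ⟨R, hR, h0, h1, h2, hA, hB⟩ : ∃ R : ℝ, 1 ≤ R ∧ (∀ x, ‖P 0 x‖ ≤ R) ∧
      (∀ x, ‖P 1 x‖ ≤ R) ∧ (∀ x, ‖P 2 x‖ ≤ R) ∧ (∀ x, ‖C.A x‖ ≤ R) ∧ (∀ x, ‖C.B x‖ ≤ R) := by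
    refine ⟨1 + R0 + R1 + R2 + RA + RB, by linarith, fun x => ?_, fun x => ?_, fun x => ?_,
      fun x => ?_, fun x => ?_⟩
    · linarith [hR0 x]
    · linarith [hR1 x]
    · linarith [hR2 x]
    · linarith [hRA x]
    · linarith [hRB x]
  have hR' : (0 : ℝ) ≤ R := by linarith
  -- the constant `ε`
  set c1 : ℝ := 2 * (1 + 3 * R) * (R + 1) with hc1
  set c2 : ℝ := 4 * R * (R + 1) * (1 + κ) with hc2
  have hc1p : 0 < c1 := by positivity
  have hc2p : 0 < c2 := by positivity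
  set ε : ℝ := min (1 / c1) (1 / c2) with hε
  have hεp : 0 < ε := lt_min (one_div_pos.2 hc1p) (one_div_pos.2 hc2p)
  have hε1 : ε * c1 ≤ 1 := by
    have := min_le_left (1 / c1) (1 / c2)
    rw [le_div_iff₀ hc1p] at this
    exact this
  have hε2 : ε * c2 ≤ 1 := by
    have := min_le_right (1 / c1) (1 / c2)
    rw [le_div_iff₀ hc2p] at this
    exact this
  obtain ⟨δ1, hδ1, hl1⟩ := hL.lin ε hεp
  obtain ⟨δ2, hδ2, hl2⟩ := hL.lin' 1 one_pos
  refine ⟨8 * R ^ 2 * (R + 1) * (1 + κ), min δ1 (δ2 / (Lf + 1)), ?_,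
    lt_min hδ1 (div_pos hδ2 (by linarith)), ?_⟩
  · have e1 : 1 ≤ R ^ 2 := one_le_pow₀ hR
    have e2 : 1 ≤ R ^ 2 * (R + 1) := by nlinarith
    have e3 : 1 ≤ R ^ 2 * (R + 1) * (1 + κ) := by nlinarith
    nlinarith
  intro x y hxy hc
  unfold cone at hc ⊢
  set v : E K := (y : E K) - x with hv
  set W : E K := (C.f y : E K) - C.f x with hW
  have hWδ : ‖W‖ ≤ δ2 := by
    have e1 := hLf y x
    have e2 : ‖v‖ ≤ δ2 / (Lf + 1) := hxy.trans (min_le_right _ _)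
    rw [le_div_iff₀ (by linarith)] at e2
    have e3 : ‖W‖ ≤ Lf * ‖v‖ := e1
    nlinarith [norm_nonneg v]
  have hlin : ‖W - C.A x v‖ ≤ ε * ‖v‖ := hl1 x y (hxy.trans (min_le_left _ _))
  have hlin' : ‖v - C.B (C.f x) W‖ ≤ 1 * ‖W‖ := by
    have e1 := hl2 (C.f x) (C.f y) hWδ
    rw [Homeomorph.symm_apply_apply, Homeomorph.symm_apply_apply] at e1
    exact e1
  have hvn := norm_nonneg v
  have hWn := norm_nonneg W
  -- (a)
  have ha : ‖v‖ ≤ (R + 1) * ‖W‖ := by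
    have e1 : v = (v - C.B (C.f x) W) + C.B (C.f x) W := by abel
    have e2 : ‖C.B (C.f x) W‖ ≤ R * ‖W‖ :=
      ((C.B (C.f x)).le_opNorm _).trans (mul_le_mul_of_nonneg_right (hB _) hWn)
    have e3 : ‖v‖ ≤ ‖v - C.B (C.f x) W‖ + ‖C.B (C.f x) W‖ := by
      conv_lhs => rw [e1]
      exact norm_add_le _ _
    linarith
  -- (b)
  have hTW : W - C.T (C.f x) W = (W - C.A x v) - C.T (C.f x) (W - C.A x v) := by
    have e1 : C.T (C.f x) (C.A x v) = C.A x v := by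
      rw [← mul_apply_eq_comp, C.TA]
    rw [map_sub (C.T (C.f x)) W (C.A x v), e1]
    abel
  have hTn : ‖C.T (C.f x)‖ ≤ 3 * R := by
    rw [← hP.sum (C.f x)]
    refine (norm_add_le _ _).trans ?_
    have e1 := norm_add_le (P 0 (C.f x)) (P 1 (C.f x))
    linarith [h0 (C.f x), h1 (C.f x), h2 (C.f x)]
  have hb1 : ‖W - C.T (C.f x) W‖ ≤ (1 + 3 * R) * (ε * ‖v‖) := by
    rw [hTW]
    refine (norm_sub_le _ _).trans ?_
    have e1 : ‖C.T (C.f x) (W - C.A x v)‖ ≤ 3 * R * ‖W - C.A x v‖ :=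
      ((C.T (C.f x)).le_opNorm _).trans (mul_le_mul_of_nonneg_right hTn (norm_nonneg _))
    have e2 := mul_le_mul_of_nonneg_left hlin (by positivity : (0 : ℝ) ≤ 1 + 3 * R)
    linarith
  have hb2 : ‖W - C.T (C.f x) W‖ ≤ ‖W‖ / 2 := by
    have e1 : (1 + 3 * R) * (ε * ‖v‖) ≤ (1 + 3 * R) * (ε * ((R + 1) * ‖W‖)) :=
      mul_le_mul_of_nonneg_left (mul_le_mul_of_nonneg_left ha hεp.le) (by positivity)
    have e2 : (1 + 3 * R) * (ε * ((R + 1) * ‖W‖)) = (ε * c1) * (‖W‖ / 2) := by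
      rw [hc1]
      ring
    have e3 : (ε * c1) * (‖W‖ / 2) ≤ 1 * (‖W‖ / 2) :=
      mul_le_mul_of_nonneg_right hε1 (by positivity)
    linarith
  have hb3 : ‖W‖ ≤ 2 * (1 + κ) * ‖P 0 (C.f x) W‖ := by
    have e1 : W = (W - C.T (C.f x) W) + (P 0 (C.f x) W + (P 2 (C.f x) + P 1 (C.f x)) W) := by
      have e2 : C.T (C.f x) W = P 0 (C.f x) W + P 1 (C.f x) W + P 2 (C.f x) W := by
        rw [← hP.sum (C.f x)]
        rfl
      rw [e2, add_apply]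
      abel
    have e3 : ‖W‖ ≤ ‖W - C.T (C.f x) W‖ + (‖P 0 (C.f x) W‖
        + ‖(P 2 (C.f x) + P 1 (C.f x)) W‖) := by
      conv_lhs => rw [e1]
      exact (norm_add_le _ _).trans (by gcongr; exact norm_add_le _ _)
    linarith
  -- (c)
  have hp0 : P 0 (C.f x) W = C.A x (P 0 x v) + P 0 (C.f x) (W - C.A x v) := by
    have e1 : P 0 (C.f x) (C.A x v) = C.A x (P 0 x v) := by
      rw [← mul_apply_eq_comp, ← hP.inv x 0, mul_apply_eq_comp]
    rw [map_sub (P 0 (C.f x)) W (C.A x v), e1]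
    abel
  have hc3 : ‖P 0 (C.f x) W‖ ≤ 2 * R * ‖P 0 x v‖ := by
    have e1 : ‖P 0 (C.f x) W‖ ≤ R * ‖P 0 x v‖ + R * (ε * ‖v‖) := by
      rw [hp0]
      refine (norm_add_le _ _).trans (add_le_add ?_ ?_)
      · exact ((C.A x).le_opNorm _).trans (mul_le_mul_of_nonneg_right (hA _) (norm_nonneg _))
      · exact ((P 0 (C.f x)).le_opNorm _).trans
          (mul_le_mul (h0 _) hlin (norm_nonneg _) hR')
    have e2 : R * (ε * ‖v‖) ≤ R * (ε * ((R + 1) * (2 * (1 + κ) * ‖P 0 (C.f x) W‖))) := by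
      refine mul_le_mul_of_nonneg_left (mul_le_mul_of_nonneg_left ?_ hεp.le) hR'
      exact ha.trans (mul_le_mul_of_nonneg_left hb3 (by positivity))
    have e3 : R * (ε * ((R + 1) * (2 * (1 + κ) * ‖P 0 (C.f x) W‖)))
        = (ε * c2) * (‖P 0 (C.f x) W‖ / 2) := by
      rw [hc2]
      ring
    have e4 : (ε * c2) * (‖P 0 (C.f x) W‖ / 2) ≤ 1 * (‖P 0 (C.f x) W‖ / 2) :=
      mul_le_mul_of_nonneg_right hε2 (by positivity)
    linarith
  -- (d)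
  have hd1 : ‖(P 2 x + P 1 x) v‖ ≤ 2 * R * ‖v‖ := by
    refine ((P 2 x + P 1 x).le_opNorm v).trans (mul_le_mul_of_nonneg_right ?_ hvn)
    have := norm_add_le (P 2 x) (P 1 x)
    linarith [h1 x, h2 x]
  calc ‖(P 2 x + P 1 x) v‖ ≤ 2 * R * ‖v‖ := hd1
    _ ≤ 2 * R * ((R + 1) * ‖W‖) := mul_le_mul_of_nonneg_left ha (by positivity)
    _ ≤ 2 * R * ((R + 1) * (2 * (1 + κ) * ‖P 0 (C.f x) W‖)) :=
        mul_le_mul_of_nonneg_left (mul_le_mul_of_nonneg_left hb3 (by positivity)) (by positivity)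
    _ ≤ 2 * R * ((R + 1) * (2 * (1 + κ) * (2 * R * ‖P 0 x v‖))) :=
        mul_le_mul_of_nonneg_left (mul_le_mul_of_nonneg_left
          (mul_le_mul_of_nonneg_left hc3 (by positivity)) (by positivity)) (by positivity)
    _ = 8 * R ^ 2 * (R + 1) * (1 + κ) * ‖P 0 x v‖ := by ring

theorem tc : StmtTC := by
  intro K M hM C P hL hP k0
  induction k0 with
  | zero =>
    intro κ _
    exact ⟨1, 1, le_rfl, one_pos, fun j hj => absurd hj (Nat.not_lt_zero j)⟩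
  | succ k0 ih =>
    intro κ hκ
    obtain ⟨κ1, δ1, hκ1, hδ1, h1⟩ := ih κ hκ
    obtain ⟨κ2, δ2, hκ2, hδ2, h2⟩ := tc_step hM C P hL hP κ1 hκ1
    obtain ⟨Lf, hLf0, hLf⟩ := (ud_one hM C hL).flip
    refine ⟨max κ κ2, min δ2 (δ1 / (Lf + 1)), hκ.trans (le_max_left _ _),
      lt_min hδ2 (div_pos hδ1 (by linarith)), ?_⟩
    intro j hj x y hxy hc
    cases j with
    | zero => exact cone_mono (P := P) (le_max_left κ κ2) hc
    | succ j =>
      have e0 : ‖(C.f y : E K) - C.f x‖ ≤ δ1 := by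
        have e1 := hLf y x
        have e2 : ‖(y : E K) - x‖ ≤ δ1 / (Lf + 1) := hxy.trans (min_le_right _ _)
        rw [le_div_iff₀ (by linarith)] at e2
        nlinarith [norm_nonneg ((y : E K) - x)]
      have e3 := h1 j (by omega) (C.f x) (C.f y) e0 hc
      exact cone_mono (P := P) (le_max_right κ κ2)
        (h2 x y (hxy.trans (min_le_left _ _)) e3)

end Pool.Agent.Helper81.RZ
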